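import Pool.Agent.Helper53.KakG.GL
import Pool.Agent.Helper53.KakG.GS
import Pool.Agent.Helper8.Kak.Sys

/-!
# Kakeya sets: from the entropic inequality with an additional multiple of the logarithm of the
scale to the Hausdorff dimension
-/

open MeasureTheory Set Filter Topology
open scoped ENNReal NNReal

set_option autoImplicit false

namespace Pool.Agent.Helper53.KakG

open Pool.Agent.Helper8.Kak

/-- the entropic inequality, stated for systems -/
def SysG (m : ℕ) (g : ℝ) : Prop :=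
  ∃ C : ℝ, 0 ≤ C ∧ ∀ (M : ℕ) (G : Geo m M) (S : Sys G),
    S.a ≤ S.h + g * Real.log (1 / G.δ) + C * (S.κ + Real.log (Real.log M + 3))

theorem EntG_of_SysG {m : ℕ} {g : ℝ} (h : SysG m g) : EntG m g := by
  obtain ⟨C, hC, H⟩ := h
  refine ⟨C, hC, ?_⟩
  intro δ M hδ hδ1 hM L x v hx hv hinj Ω _ p hp K l T
  exact H M ⟨L, x, v, δ, hδ, hδ1, hM, hx, hv, hinj⟩ ⟨Ω, inferInstance, p, hp, K, l, T⟩

/-- the discrete statement from the entropic one -/
theorem discreteG_of_EntG {m : ℕ} {g : ℝ} (h : EntG m g) : DiscreteG m g :=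
  discreteG_of_EntGu (EntG_unbounded h)

/-- **Unions of lines with directions in a set `Om` of unit vectors of `R^n`.** -/
theorem dimH_directions_of_EntG {n : ℕ} (hn : 1 ≤ n) {g : ℝ} (h : EntG (n - 1) g)
    (Om K : Set (EuclideanSpace ℝ (Fin n))) (hOm : ∀ ω ∈ Om, ‖ω‖ = 1)
    (hK : ∀ ω ∈ Om, ∃ x : EuclideanSpace ℝ (Fin n), 1 ≤ dimH {t : ℝ | x + t • ω ∈ K})
    {s : ℝ} (hs : 0 < s) (hsO : ENNReal.ofReal s < dimH Om) :
    ENNReal.ofReal (s - g + 1) ≤ dimH K := by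
  obtain ⟨m, rfl⟩ : ∃ m, n = m + 1 := ⟨n - 1, by omega⟩
  exact dimH_ge_directionsG (discreteG_of_EntG (by simpa using h)) Om K hOm hK hs hsO

/-- **Kakeya sets.** If for every unit vector `ω` of `R^n`, `n ≥ 2`, the set `K` meets some line in
direction `ω` in a set of Hausdorff dimension one, then `dim K ≥ n - g`. -/
theorem dimH_kakeya_of_EntG {n : ℕ} (hn : 2 ≤ n) {g : ℝ} (h : EntG (n - 1) g)
    (K : Set (EuclideanSpace ℝ (Fin n)))
    (hK : ∀ ω : EuclideanSpace ℝ (Fin n), ‖ω‖ = 1 →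
      ∃ x : EuclideanSpace ℝ (Fin n), 1 ≤ dimH {t : ℝ | x + t • ω ∈ K}) :
    ENNReal.ofReal (n - g) ≤ dimH K := by
  obtain ⟨m, rfl⟩ : ∃ m, n = m + 1 := ⟨n - 1, by omega⟩
  have h1 := dimH_ge_sphereG (m := m) (g := g) (discreteG_of_EntG (by simpa using h)) K hK (by omega)
  have h2 : (((m + 1 : ℕ) : ℝ) - g) = m - g + 1 := by push_cast; ring
  rw [h2]
  exact h1

/-- the same from the inequality for systems -/
theorem dimH_kakeya_of_SysG {n : ℕ} (hn : 2 ≤ n) {g : ℝ} (h : SysG (n - 1) g)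
    (K : Set (EuclideanSpace ℝ (Fin n)))
    (hK : ∀ ω : EuclideanSpace ℝ (Fin n), ‖ω‖ = 1 →
      ∃ x : EuclideanSpace ℝ (Fin n), 1 ≤ dimH {t : ℝ | x + t • ω ∈ K}) :
    ENNReal.ofReal (n - g) ≤ dimH K :=
  dimH_kakeya_of_EntG hn (EntG_of_SysG h) K hK

end Pool.Agent.Helper53.KakG
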