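import Pool.Agent.Helper39.DiscL
import Pool.Agent.Helper53.KakG.GK

/-!
# Hausdorff dimension of unions of lines from the discrete statement with an additional power of
the scale
-/

open MeasureTheory Set Filter Topology
open scoped ENNReal NNReal

namespace Pool.Agent.Helper53.KakG

open Pool.Agent.Helper39

lemma core_dirs_bddG {m : ℕ} {g : ℝ} (h : DiscreteG m g)
    (K : Set ((Fin m → ℝ) × ℝ)) (V : Set (Fin m → ℝ))
    (hK : ∀ v ∈ V, ∃ x : Fin m → ℝ, 1 ≤ dimH {θ : ℝ | (x + θ • v, θ) ∈ K})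
    {s : ℝ} (hs : 0 < s) (hsV : ENNReal.ofReal s < dimH V) :
    ENNReal.ofReal (s - g + 1) ≤ dimH K := by
  -- a cube
  set W : (Fin m → ℤ) → Set (Fin m → ℝ) := fun c => {v | v ∈ V ∧ ∀ k, (c k : ℝ) ≤ v k ∧ v k ≤ c k + 1} with hW
  have hcover : V ⊆ ⋃ c, W c := by
    intro v hv
    exact mem_iUnion.2 ⟨fun k => ⌊v k⌋, hv, fun k => ⟨Int.floor_le _, (Int.lt_floor_add_one _).le⟩⟩
  obtain ⟨c, hc⟩ : ∃ c, ENNReal.ofReal s < dimH (W c) := by
    have h1 : ENNReal.ofReal s < ⨆ c, dimH (W c) := by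
      rw [← dimH_iUnion]
      exact hsV.trans_le (dimH_mono hcover)
    exact lt_iSup_iff.1 h1
  set cc : Fin m → ℝ := fun k => (c k : ℝ) with hcc
  let ψ : ((Fin m → ℝ) × ℝ) →L[ℝ] ((Fin m → ℝ) × ℝ) :=
    (ContinuousLinearMap.fst ℝ (Fin m → ℝ) ℝ - (ContinuousLinearMap.snd ℝ (Fin m → ℝ) ℝ).smulRight cc).prod
      (ContinuousLinearMap.snd ℝ (Fin m → ℝ) ℝ)
  have hψ : ∀ p, ψ p = (p.1 - p.2 • cc, p.2) := fun p => rfl
  have h1 : dimH (ψ '' K) ≤ dimH K := ψ.lipschitz.dimH_image_le K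
  refine le_trans ?_ h1
  refine core_dirsG h (ψ '' K) ((fun v => v - cc) '' W c) ?_ ?_ hs ?_
  · rintro _ ⟨v, hv, rfl⟩
    refine ⟨fun k => ?_, fun k => ?_⟩
    · simp only [Pi.zero_apply, Pi.sub_apply, sub_nonneg]
      exact (hv.2 k).1
    · simp only [Pi.one_apply, Pi.sub_apply]
      have := (hv.2 k).2
      simp only [hcc]
      linarith
  · rintro _ ⟨v, hv, rfl⟩
    obtain ⟨x, hx⟩ := hK v hv.1
    refine ⟨x, hx.trans (dimH_mono (fun θ hθ => ?_))⟩
    refine ⟨(x + θ • v, θ), hθ, ?_⟩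
    rw [hψ]
    simp only [Prod.mk.injEq, and_true]
    rw [smul_sub, add_sub_assoc]
  · have h2 : dimH ((fun v => v - cc) '' W c) = dimH (W c) :=
      (IsometryEquiv.subRight cc).dimH_image (W c)
    rw [h2]
    exact hc

lemma core_dirs_lastG {m : ℕ} {g : ℝ} (h : DiscreteG m g)
    (Om K : Set (EuclideanSpace ℝ (Fin (m+1)))) (hOm : ∀ ω ∈ Om, ‖ω‖ = 1 ∧ ω (Fin.last m) ≠ 0)
    (hK : ∀ ω ∈ Om, ∃ x : EuclideanSpace ℝ (Fin (m+1)), 1 ≤ dimH {t : ℝ | x + t • ω ∈ K})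
    {s : ℝ} (hs : 0 < s) (hsV : ENNReal.ofReal s < dimH Om) :
    ENNReal.ofReal (s - g + 1) ≤ dimH K := by
  set V : Set (Fin m → ℝ) := {v | dirf v ∈ Om ∨ -dirf v ∈ Om} with hV
  have hsub : Om ⊆ dirf '' V ∪ (fun v => -dirf v) '' V := by
    intro ω hω
    obtain ⟨h1, h2⟩ := hOm ω hω
    set a := ω (Fin.last m) with ha
    set v : Fin m → ℝ := fun k => ω k.castSucc / a with hv
    have h3 : ptf (v, (1:ℝ)) = a⁻¹ • ω := by
      ext i
      refine Fin.lastCases ?_ (fun k => ?_) i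
      · rw [ptf_last]
        simp only [PiLp.smul_apply, smul_eq_mul]
        rw [← ha, inv_mul_cancel₀ h2]
      · rw [ptf_castSucc]
        simp only [PiLp.smul_apply, smul_eq_mul, hv]
        rw [div_eq_inv_mul]
    have h4 : ‖ptf (v, (1:ℝ))‖⁻¹ = |a| := by
      rw [h3, norm_smul, h1, mul_one, norm_inv, inv_inv, Real.norm_eq_abs]
    have h5 : dirf v = (|a| * a⁻¹) • ω := by
      unfold dirf
      rw [h4, h3, smul_smul]
    rcases lt_or_gt_of_ne h2 with h6 | h6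
    · rw [abs_of_neg h6, neg_mul, mul_inv_cancel₀ h2, neg_one_smul] at h5
      right
      refine ⟨v, Or.inr ?_, ?_⟩
      · rw [h5, neg_neg]; exact hω
      · simp only [h5, neg_neg]
    · rw [abs_of_pos h6, mul_inv_cancel₀ h2, one_smul] at h5
      left
      refine ⟨v, Or.inl ?_, ?_⟩
      · rw [h5]; exact hω
      · exact h5
  have hdimV : dimH Om ≤ dimH V := by
    refine (dimH_mono hsub).trans ?_
    rw [dimH_union, max_le_iff]
    exact ⟨(contDiff_dirf m).contDiffOn.dimH_image_le convex_univ (subset_univ V),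
      (contDiff_dirf m).neg.contDiffOn.dimH_image_le convex_univ (subset_univ V)⟩
  have hanti : AntilipschitzWith 1 (ptf (m := m)) := by
    refine AntilipschitzWith.of_le_mul_dist (fun p q => ?_)
    rw [NNReal.coe_one, one_mul]
    exact dist_le_ptf p q
  refine le_trans ?_ (hanti.dimH_preimage_le K)
  refine core_dirs_bddG h (ptf ⁻¹' K) V ?_ hs (hsV.trans_le hdimV)
  intro v hv
  have hnpos : 0 < ‖ptf (v, (1:ℝ))‖ := norm_pos_iff.2 (ptf_ne_zero v)
  -- a line in the direction `dirf v` up to sign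
  obtain ⟨x, σ, hσ, hx⟩ : ∃ (x : EuclideanSpace ℝ (Fin (m+1))) (σ : ℝ), σ * σ = 1 ∧
      1 ≤ dimH {t : ℝ | x + t • (σ • dirf v) ∈ K} := by
    rcases hv with hv | hv
    · obtain ⟨x, hx⟩ := hK _ hv
      exact ⟨x, 1, by norm_num, by simpa using hx⟩
    · obtain ⟨x, hx⟩ := hK _ hv
      exact ⟨x, -1, by norm_num, by simpa using hx⟩
  set a := x (Fin.last m) with ha
  set N := ‖ptf (v, (1:ℝ))‖ with hN
  refine ⟨fun k => x k.castSucc - a * v k, hx.trans ?_⟩
  have hσ0 : σ ≠ 0 := by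
    rintro rfl
    norm_num at hσ
  let φ : ℝ → ℝ := fun θ => (θ - a) * (N * σ)
  have hφ : LipschitzWith (Real.toNNReal (|N * σ|)) φ := by
    refine LipschitzWith.of_dist_le_mul (fun p q => ?_)
    rw [Real.dist_eq, Real.dist_eq, Real.coe_toNNReal _ (abs_nonneg _), ← abs_mul]
    apply le_of_eq
    simp only [φ]
    congr 1
    ring
  have hsurj : {t : ℝ | x + t • (σ • dirf v) ∈ K} ⊆
      φ '' {θ : ℝ | ((fun k => x k.castSucc - a * v k) + θ • v, θ) ∈ ptf ⁻¹' K} := by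
    intro t ht
    refine ⟨t * (N * σ)⁻¹ + a, ?_, ?_⟩
    · simp only [mem_ofPred_eq, mem_preimage] at ht ⊢
      convert ht using 1
      unfold dirf
      rw [← hN]
      have hz : t * (N * σ)⁻¹ = t * (σ * N⁻¹) := by
        rw [mul_inv]
        have : σ⁻¹ = σ := by field_simp; linarith [hσ, sq σ]
        rw [this]
        ring
      ext i
      refine Fin.lastCases ?_ (fun k => ?_) i
      · rw [ptf_last]
        simp only [PiLp.add_apply, PiLp.smul_apply, smul_eq_mul]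
        rw [ptf_last, ← ha, hz]
        simp only
        ring
      · rw [ptf_castSucc]
        simp only [PiLp.add_apply, PiLp.smul_apply, smul_eq_mul, Pi.add_apply, Pi.smul_apply]
        rw [ptf_castSucc, hz]
        simp only
        ring
    · simp only [φ]
      have : N * σ ≠ 0 := mul_ne_zero hnpos.ne' hσ0
      field_simp
      ring
  exact (dimH_mono hsurj).trans (hφ.dimH_image_le _)

/-- If for every direction `ω` in a set `Om` of unit vectors of `R^(m+1)` the set `K` meets some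
line in direction `ω` in a set of Hausdorff dimension one, then `dim K ≥ s - g + 1` for every
`0 < s < dim Om`. -/
theorem dimH_ge_directionsG {m : ℕ} {g : ℝ} (h : DiscreteG m g)
    (Om K : Set (EuclideanSpace ℝ (Fin (m+1)))) (hOm : ∀ ω ∈ Om, ‖ω‖ = 1)
    (hK : ∀ ω ∈ Om, ∃ x : EuclideanSpace ℝ (Fin (m+1)), 1 ≤ dimH {t : ℝ | x + t • ω ∈ K})
    {s : ℝ} (hs : 0 < s) (hsO : ENNReal.ofReal s < dimH Om) :
    ENNReal.ofReal (s - g + 1) ≤ dimH K := by
  have hcover : Om ⊆ ⋃ i : Fin (m+1), {ω | ω ∈ Om ∧ ω i ≠ 0} := by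
    intro ω hω
    by_contra hcon
    simp only [mem_iUnion, mem_ofPred_eq, not_exists, not_and, not_not] at hcon
    have h1 : ω = 0 := by
      ext i
      exact hcon i hω
    have h2 := hOm ω hω
    rw [h1, norm_zero] at h2
    exact zero_ne_one h2
  obtain ⟨i, hi⟩ : ∃ i : Fin (m+1), ENNReal.ofReal s < dimH {ω | ω ∈ Om ∧ ω i ≠ 0} := by
    have h1 : ENNReal.ofReal s < ⨆ i : Fin (m+1), dimH {ω | ω ∈ Om ∧ ω i ≠ 0} := by
      rw [← dimH_iUnion]
      exact hsO.trans_le (dimH_mono hcover)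
    exact lt_iSup_iff.1 h1
  let f : EuclideanSpace ℝ (Fin (m+1)) ≃ₗᵢ[ℝ] EuclideanSpace ℝ (Fin (m+1)) :=
    LinearIsometryEquiv.piLpCongrLeft 2 ℝ ℝ (Equiv.swap i (Fin.last m))
  have hglast : ∀ ω, f ω (Fin.last m) = ω i := by
    intro ω
    simp [f, LinearIsometryEquiv.piLpCongrLeft_apply, Equiv.piCongrLeft'_apply]
  have hgK : dimH (f '' K) = dimH K := f.isometry.dimH_image K
  rw [← hgK]
  refine core_dirs_lastG h (f '' {ω | ω ∈ Om ∧ ω i ≠ 0}) (f '' K) ?_ ?_ hs ?_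
  · rintro _ ⟨ω, ⟨hω, hωi⟩, rfl⟩
    exact ⟨by rw [f.norm_map]; exact hOm ω hω, by rw [hglast]; exact hωi⟩
  · rintro _ ⟨ω, ⟨hω, _⟩, rfl⟩
    obtain ⟨x, hx⟩ := hK ω hω
    refine ⟨f x, hx.trans (dimH_mono (fun t ht => ?_))⟩
    refine ⟨x + t • ω, ht, ?_⟩
    rw [map_add, map_smul]
  · rw [f.isometry.dimH_image]
    exact hi

/-- Kakeya sets: if for every unit vector `ω` of `R^(m+1)` the set `K` meets some line in direction
`ω` in a set of Hausdorff dimension one, then `dim K ≥ m - g + 1`. -/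
theorem dimH_ge_sphereG {m : ℕ} {g : ℝ} (h : DiscreteG m g)
    (K : Set (EuclideanSpace ℝ (Fin (m+1))))
    (hK : ∀ ω : EuclideanSpace ℝ (Fin (m+1)), ‖ω‖ = 1 →
      ∃ x : EuclideanSpace ℝ (Fin (m+1)), 1 ≤ dimH {t : ℝ | x + t • ω ∈ K}) (hm : 0 < m) :
    ENNReal.ofReal (m - g + 1) ≤ dimH K := by
  have h0 := le_dimH_unit_sphere m
  have hmr : (0:ℝ) < m := by exact_mod_cast hm
  have h1 : Tendsto (fun s : ℝ => ENNReal.ofReal (s - g + 1)) (𝓝[<] (m:ℝ)) (𝓝 (ENNReal.ofReal (m - g + 1))) := by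
    refine (ENNReal.continuous_ofReal.tendsto _).comp ?_
    refine Tendsto.mono_left ?_ nhdsWithin_le_nhds
    refine ContinuousAt.tendsto ?_
    fun_prop
  refine le_of_tendsto h1 ?_
  have h2 : ∀ᶠ s : ℝ in 𝓝[<] (m:ℝ), 0 < s := nhdsWithin_le_nhds (lt_mem_nhds hmr)
  filter_upwards [self_mem_nhdsWithin, h2] with s hs1 hs2
  refine dimH_ge_directionsG h {ω | ‖ω‖ = 1} K (fun ω hω => hω) (fun ω hω => hK ω hω) hs2 ?_
  refine lt_of_lt_of_le ?_ h0
  rw [← ENNReal.ofReal_natCast]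
  exact (ENNReal.ofReal_lt_ofReal_iff hmr).2 hs1

end Pool.Agent.Helper53.KakG
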